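import Mathlib

/-!
# Definitions: ordered sets, order dimension, decks (MP_dbf53e_co, helper87)
-/

namespace Pool.Agent.Helper87.PD

/-- `r` is a partial order. -/
def IsPO {α : Type*} (r : α → α → Prop) : Prop :=
  (∀ a, r a a) ∧ (∀ a b, r a b → r b a → a = b) ∧ ∀ a b c, r a b → r b c → r a c

/-- `r` is a linear order. -/
def IsLin {α : Type*} (r : α → α → Prop) : Prop := IsPO r ∧ ∀ a b, r a b ∨ r b a

/-- `r` is the intersection of `d` linear orders. -/
def HasRealizer {α : Type*} (r : α → α → Prop) (d : ℕ) : Prop :=
  ∃ L : Fin d → α → α → Prop, (∀ i, IsLin (L i)) ∧ ∀ a b, r a b ↔ ∀ i, L i a b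

/-- The order dimension. -/
noncomputable def dim {α : Type*} (r : α → α → Prop) : ℕ := sInf {d | HasRealizer r d}

/-- Isomorphism of relations. -/
def Iso {α β : Type*} (r : α → α → Prop) (s : β → β → Prop) : Prop :=
  ∃ f : α ≃ β, ∀ a b, r a b ↔ s (f a) (f b)

/-- The restriction of `r` to the subset `A`. -/
def res {α : Type*} (r : α → α → Prop) (A : Finset α) : A → A → Prop := fun a b => r a b

/-- The card `P - x`. -/
def del {α : Type*} (r : α → α → Prop) (x : α) : {a : α // a ≠ x} → {a : α // a ≠ x} → Prop :=
  fun a b => r a b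

/-- `r` and `s` have the same deck: the multisets of the isomorphism classes of the cards agree. -/
def SameDeck {n : ℕ} (r s : Fin n → Fin n → Prop) : Prop :=
  ∃ π : Equiv.Perm (Fin n), ∀ x, Iso (del r x) (del s (π x))

/-- `r` and `s` have the same deck of `(n - k)`-element ordered subsets. -/
def SameKDeck {n : ℕ} (k : ℕ) (r s : Fin n → Fin n → Prop) : Prop :=
  ∃ π : {A : Finset (Fin n) // A.card + k = n} ≃ {A : Finset (Fin n) // A.card + k = n},
    ∀ A, Iso (res r A.1) (res s (π A).1)

/-- `r` is determined, up to isomorphism among all ordered sets on `n` points, by the isomorphism types of any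
ordered subsets with at least `n - n / 2048` points which cover all pairs: if `s` is an ordered set with subsets
`A' i` which cover all pairs of points and are isomorphic to large subsets `A i` of `r`, then `s` is isomorphic
to `r`. -/
def Determined {n : ℕ} (r : Fin n → Fin n → Prop) : Prop :=
  ∀ s : Fin n → Fin n → Prop, IsPO s → ∀ (ι : Type) (A A' : ι → Finset (Fin n)),
    (∀ i, n ≤ (A i).card + n / 2048) → (∀ i, Iso (res r (A i)) (res s (A' i))) →
    (∀ u v, ∃ i, u ∈ A' i ∧ v ∈ A' i) → Iso r s

/-- Isomorphism as an equivalence relation on the relations on `Fin n` with a given property. -/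
def isoSetoid {n : ℕ} (Q : (Fin n → Fin n → Prop) → Prop) :
    Setoid {r : Fin n → Fin n → Prop // Q r} where
  r a b := Iso a.1 b.1
  iseqv :=
    { refl := fun a => ⟨Equiv.refl _, fun _ _ => Iff.rfl⟩
      symm := by
        rintro a b ⟨f, hf⟩
        exact ⟨f.symm, fun x y => by rw [hf, f.apply_symm_apply, f.apply_symm_apply]⟩
      trans := by
        rintro a b c ⟨f, hf⟩ ⟨g, hg⟩
        exact ⟨f.trans g, fun x y => by rw [hf, hg]; rfl⟩ }

/-- The number of isomorphism classes of relations on `Fin n` with property `Q`. -/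
noncomputable def classes {n : ℕ} (Q : (Fin n → Fin n → Prop) → Prop) : ℕ :=
  Nat.card (Quotient (isoSetoid Q))

end Pool.Agent.Helper87.PD
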