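import Pool.Agent.Helper87.PD.Rec

/-!
# Isomorphism classes, and the consequences of `Determined`
-/

namespace Pool.Agent.Helper87.PD

theorem Iso.symm {α β : Type*} {r : α → α → Prop} {s : β → β → Prop} (h : Iso r s) : Iso s r := by
  obtain ⟨f, hf⟩ := h
  exact ⟨f.symm, fun x y => by rw [hf, f.apply_symm_apply, f.apply_symm_apply]⟩

theorem Iso.trans {α β γ : Type*} {r : α → α → Prop} {s : β → β → Prop} {t : γ → γ → Prop}
    (h : Iso r s) (h' : Iso s t) : Iso r t := by
  obtain ⟨f, hf⟩ := h
  obtain ⟨g, hg⟩ := h'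
  exact ⟨f.trans g, fun x y => by rw [hf, hg]; rfl⟩

theorem hasRealizer_of_iso {α β : Type*} {r : α → α → Prop} {s : β → β → Prop} (h : Iso r s)
    {d : ℕ} (hd : HasRealizer s d) : HasRealizer r d := by
  obtain ⟨f, hf⟩ := h
  obtain ⟨L, hL, hLs⟩ := hd
  refine ⟨fun i a b => L i (f a) (f b), fun i => ⟨⟨fun a => (hL i).1.1 _, ?_, ?_⟩, ?_⟩, ?_⟩
  · exact fun a b h1 h2 => f.injective ((hL i).1.2.1 _ _ h1 h2)
  · exact fun a b c h1 h2 => (hL i).1.2.2 _ _ _ h1 h2
  · exact fun a b => (hL i).2 _ _
  · intro a b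
    rw [hf, hLs]

theorem dim_eq_of_iso {α β : Type*} {r : α → α → Prop} {s : β → β → Prop} (h : Iso r s) :
    dim r = dim s := by
  unfold dim
  congr 1
  ext d
  exact ⟨hasRealizer_of_iso h.symm, hasRealizer_of_iso h⟩

/-- the subset of all points but one -/
theorem iso_del_res {n : ℕ} (r : Fin n → Fin n → Prop) (x : Fin n) :
    Iso (res r (Finset.univ.erase x)) (del r x) :=
  ⟨{ toFun := fun a => ⟨a.1, (Finset.mem_erase.1 a.2).1⟩
     invFun := fun a => ⟨a.1, Finset.mem_erase.2 ⟨a.2, Finset.mem_univ _⟩⟩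
     left_inv := fun _ => rfl
     right_inv := fun _ => rfl }, fun _ _ => Iff.rfl⟩

theorem three_cards {n : ℕ} (hn : 2048 ≤ n) {r s : Fin n → Fin n → Prop} (h : Determined r)
    (hs : IsPO s) (x y : Fin 3 → Fin n) (hy : Function.Injective y)
    (hxy : ∀ i, Iso (del r (x i)) (del s (y i))) : Iso r s := by
  classical
  refine h s hs (Fin 3) (fun i => Finset.univ.erase (x i)) (fun i => Finset.univ.erase (y i))
    ?_ ?_ ?_
  · intro i
    rw [Finset.card_erase_of_mem (Finset.mem_univ _), Finset.card_univ, Fintype.card_fin]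
    omega
  · intro i
    exact ((iso_del_res r (x i)).trans (hxy i)).trans (iso_del_res s (y i)).symm
  · intro u v
    by_contra hcon
    push Not at hcon
    have h1 : ∀ i, y i = u ∨ y i = v := by
      intro i
      by_contra h2
      push Not at h2
      exact hcon i (Finset.mem_erase.2 ⟨h2.1.symm, Finset.mem_univ _⟩)
        (Finset.mem_erase.2 ⟨h2.2.symm, Finset.mem_univ _⟩)
    have h2 : ∀ i, y i ∈ ({u, v} : Finset (Fin n)) := by
      intro i
      rw [Finset.mem_insert, Finset.mem_singleton]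
      exact h1 i
    have h3 : (Finset.univ.image y).card ≤ ({u, v} : Finset (Fin n)).card := by
      refine Finset.card_le_card ?_
      intro z hz
      obtain ⟨i, -, rfl⟩ := Finset.mem_image.1 hz
      exact h2 i
    rw [Finset.card_image_of_injective _ hy, Finset.card_univ, Fintype.card_fin] at h3
    have h4 : ({u, v} : Finset (Fin n)).card ≤ 2 := Finset.card_le_two
    omega

theorem same_deck {n : ℕ} (hn : 2048 ≤ n) {r s : Fin n → Fin n → Prop} (h : Determined r)
    (hs : IsPO s) (hd : SameDeck r s) : Iso r s := by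
  obtain ⟨π, hπ⟩ := hd
  refine three_cards hn h hs (fun i => ⟨i, by omega⟩) (fun i => π ⟨i, by omega⟩) ?_
    fun i => hπ _
  intro i j hij
  have h1 := π.injective hij
  rw [Fin.mk.injEq] at h1
  exact Fin.ext h1

theorem same_kdeck {n k : ℕ} (hn : 2048 ≤ n) (hk : k ≤ n / 2048) {r s : Fin n → Fin n → Prop}
    (h : Determined r) (hs : IsPO s) (hd : SameKDeck k r s) : Iso r s := by
  classical
  obtain ⟨π, hπ⟩ := hd
  refine h s hs {A : Finset (Fin n) // A.card + k = n} (fun A => A.1) (fun A => (π A).1)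
    (fun A => by have := A.2; omega) hπ ?_
  intro u v
  obtain ⟨A, hA1, -, hA2⟩ := Finset.exists_subsuperset_card_eq
    (s := ({u, v} : Finset (Fin n))) (t := Finset.univ) (n := n - k) (Finset.subset_univ _)
    (by have : ({u, v} : Finset (Fin n)).card ≤ 2 := Finset.card_le_two
        omega)
    (by rw [Finset.card_univ, Fintype.card_fin]; omega)
  refine ⟨π.symm ⟨A, by omega⟩, ?_, ?_⟩
  · rw [Equiv.apply_symm_apply]
    exact hA1 (by simp)
  · rw [Equiv.apply_symm_apply]
    exact hA1 (by simp)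

theorem determined_congr {n : ℕ} {r : Fin n → Fin n → Prop} (h : Determined r)
    (e : Equiv.Perm (Fin n)) : Determined fun a b => r (e a) (e b) := by
  classical
  intro s hs ι A A' hA hiso hcov
  have hr : Iso (fun a b => r (e a) (e b)) r := ⟨e, fun _ _ => Iff.rfl⟩
  refine hr.trans (h s hs ι (fun i => (A i).map e.toEmbedding) A' ?_ ?_ hcov)
  · intro i
    rw [Finset.card_map]
    exact hA i
  · intro i
    refine Iso.trans ?_ (hiso i)
    refine Iso.symm ?_
    refine ⟨{ toFun := fun a => ⟨e a.1, Finset.mem_map_of_mem _ a.2⟩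
              invFun := fun b => ⟨e.symm b.1, by
                obtain ⟨a, ha, hb⟩ := Finset.mem_map.1 b.2
                rw [← hb]
                show e.symm (e a) ∈ A i
                rwa [Equiv.symm_apply_apply]⟩
              left_inv := fun a => Subtype.ext (e.symm_apply_apply _)
              right_inv := fun b => Subtype.ext (e.apply_symm_apply _) }, fun _ _ => Iff.rfl⟩

section Burnside

variable {n : ℕ}

/-- The action of the permutations. -/
noncomputable def act (Q : (Fin n → Fin n → Prop) → Prop)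
    (hQ : ∀ (e : Equiv.Perm (Fin n)) r, Q r → Q fun a b => r (e a) (e b)) :
    MulAction (Equiv.Perm (Fin n)) {r : Fin n → Fin n → Prop // Q r} where
  smul e r := ⟨fun a b => r.1 (e⁻¹ a) (e⁻¹ b), hQ _ _ r.2⟩
  one_smul r := rfl
  mul_smul e f r := rfl

theorem classes_mul (Q : (Fin n → Fin n → Prop) → Prop)
    (hQ : ∀ (e : Equiv.Perm (Fin n)) r, Q r → Q fun a b => r (e a) (e b)) :
    classes Q * n.factorial =
      ∑ e : Equiv.Perm (Fin n), Nat.card {r : {r : Fin n → Fin n → Prop // Q r} //
        Inv ∅ e r.1} := by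
  classical
  letI := act Q hQ
  haveI : ∀ e : Equiv.Perm (Fin n), Fintype (MulAction.fixedBy
    {r : Fin n → Fin n → Prop // Q r} e) := fun _ => Fintype.ofFinite _
  haveI : Fintype (MulAction.orbitRel.Quotient (Equiv.Perm (Fin n))
    {r : Fin n → Fin n → Prop // Q r}) := Fintype.ofFinite _
  have h1 : isoSetoid Q = MulAction.orbitRel (Equiv.Perm (Fin n))
      {r : Fin n → Fin n → Prop // Q r} := by
    ext a b
    rw [MulAction.orbitRel_apply, MulAction.mem_orbit_iff]
    constructor
    · rintro ⟨f, hf⟩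
      refine ⟨f⁻¹, ?_⟩
      apply Subtype.ext
      funext x y
      show b.1 (f⁻¹⁻¹ x) (f⁻¹⁻¹ y) = a.1 x y
      rw [inv_inv]
      exact propext (hf x y).symm
    · rintro ⟨f, rfl⟩
      refine ⟨f⁻¹, fun x y => Iff.rfl⟩
  have h2 := MulAction.sum_card_fixedBy_eq_card_orbits_mul_card_group (Equiv.Perm (Fin n))
    {r : Fin n → Fin n → Prop // Q r}
  rw [Fintype.card_perm, Fintype.card_fin] at h2
  have h3 : classes Q = Fintype.card (MulAction.orbitRel.Quotient (Equiv.Perm (Fin n))
      {r : Fin n → Fin n → Prop // Q r}) := by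
    unfold classes
    rw [h1, Nat.card_eq_fintype_card]
  rw [h3, ← h2]
  refine Finset.sum_congr rfl fun e _ => ?_
  rw [← Nat.card_eq_fintype_card]
  refine Nat.card_congr (Equiv.subtypeEquivRight fun r => ?_)
  rw [MulAction.mem_fixedBy]
  constructor
  · intro h a b _ _
    have h4 := congrFun (congrFun (congrArg Subtype.val h) (e a)) (e b)
    have h5 : r.1 (e⁻¹ (e a)) (e⁻¹ (e b)) = r.1 (e a) (e b) := h4
    have h6 : ∀ c, e⁻¹ (e c) = c := fun c => e.symm_apply_apply c
    rw [h6, h6] at h5
    exact iff_of_eq h5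
  · intro h
    apply Subtype.ext
    funext a b
    show r.1 (e⁻¹ a) (e⁻¹ b) = r.1 a b
    have h4 := h (e⁻¹ a) (e⁻¹ b) (Finset.notMem_empty _) (Finset.notMem_empty _)
    have h6 : ∀ c, e (e⁻¹ c) = c := fun c => e.apply_symm_apply c
    rw [h6, h6] at h4
    exact propext h4

theorem pp_le_classes : pp n ≤ classes (fun r : Fin n → Fin n → Prop => IsPO r) * n.factorial := by
  classical
  rw [classes_mul _ fun e r hr => isPO_comap hr e e.injective]
  refine le_trans ?_ (Finset.single_le_sum (f := fun e : Equiv.Perm (Fin n) =>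
    Nat.card {r : {r : Fin n → Fin n → Prop // IsPO r} // Inv ∅ e r.1})
    (fun _ _ => Nat.zero_le _) (Finset.mem_univ 1))
  refine Nat.card_le_card_of_injective (fun r : P (Fin n) =>
    (⟨r, fun a b _ _ => Iff.rfl⟩ :
      {r : {r : Fin n → Fin n → Prop // IsPO r} // Inv ∅ (1 : Equiv.Perm (Fin n)) r.1})) ?_
  intro r s h
  exact congrArg Subtype.val h

theorem classes_not_le :
    (classes (fun r : Fin n → Fin n → Prop => IsPO r ∧ ¬ Determined r) * n.factorial : ℝ) ≤
      2 * ∑ t ∈ II n, (Nat.card {r : P (Fin n) // Inv t.1 t.2 r.1} : ℝ) := by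
  classical
  have h0 : ∀ (e : Equiv.Perm (Fin n)) (r : Fin n → Fin n → Prop), (IsPO r ∧ ¬ Determined r) →
      (IsPO (fun a b => r (e a) (e b)) ∧ ¬ Determined fun a b => r (e a) (e b)) := by
    rintro e r ⟨h1, h2⟩
    refine ⟨isPO_comap h1 e e.injective, fun h3 => h2 ?_⟩
    have h4 := determined_congr h3 e.symm
    simpa using h4
  have h1 := classes_mul _ h0
  have h2 : (classes (fun r : Fin n → Fin n → Prop => IsPO r ∧ ¬ Determined r) *
      n.factorial : ℝ) = ∑ e : Equiv.Perm (Fin n),
        (Nat.card {r : {r : Fin n → Fin n → Prop // IsPO r ∧ ¬ Determined r} //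
        Inv ∅ e r.1} : ℝ) := by exact_mod_cast h1
  rw [h2, ← Finset.add_sum_erase _ _ (Finset.mem_univ (1 : Equiv.Perm (Fin n))), two_mul]
  refine add_le_add ?_ ?_
  · refine le_trans ?_ card_not_rigid
    have h3 : Nat.card {r : {r : Fin n → Fin n → Prop // IsPO r ∧ ¬ Determined r} //
        Inv ∅ (1 : Equiv.Perm (Fin n)) r.1} ≤ Nat.card {r : P (Fin n) // ¬ Rigid r.1} := by
      refine Nat.card_le_card_of_injective (fun r =>
        (⟨⟨r.1.1, r.1.2.1⟩, fun h => r.1.2.2 (determined_of_rigid h)⟩ :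
          {r : P (Fin n) // ¬ Rigid r.1})) ?_
      intro r s h
      apply Subtype.ext
      apply Subtype.ext
      exact congrArg (fun t : {r : P (Fin n) // ¬ Rigid r.1} => t.1.1) h
    exact_mod_cast h3
  · calc ∑ e ∈ Finset.univ.erase (1 : Equiv.Perm (Fin n)),
          (Nat.card {r : {r : Fin n → Fin n → Prop // IsPO r ∧ ¬ Determined r} //
          Inv ∅ e r.1} : ℝ)
        ≤ ∑ e ∈ Finset.univ.erase (1 : Equiv.Perm (Fin n)),
          (Nat.card {r : P (Fin n) // Inv ∅ (e : Fin n → Fin n) r.1} : ℝ) := by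
          refine Finset.sum_le_sum fun e _ => ?_
          have h3 : Nat.card {r : {r : Fin n → Fin n → Prop // IsPO r ∧ ¬ Determined r} //
              Inv ∅ e r.1} ≤ Nat.card {r : P (Fin n) // Inv ∅ (e : Fin n → Fin n) r.1} := by
            refine Nat.card_le_card_of_injective (fun r =>
              (⟨⟨r.1.1, r.1.2.1⟩, r.2⟩ :
                {r : P (Fin n) // Inv ∅ (e : Fin n → Fin n) r.1})) ?_
            intro r s h
            apply Subtype.ext
            apply Subtype.ext
            exact congrArg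
              (fun t : {r : P (Fin n) // Inv ∅ (e : Fin n → Fin n) r.1} => t.1.1) h
          exact_mod_cast h3
      _ = ∑ t ∈ (Finset.univ.erase (1 : Equiv.Perm (Fin n))).image
            (fun e : Equiv.Perm (Fin n) => ((∅ : Finset (Fin n)), (⇑e : Fin n → Fin n))),
            (Nat.card {r : P (Fin n) // Inv t.1 t.2 r.1} : ℝ) := by
          rw [Finset.sum_image]
          intro e _ f _ hef
          exact Equiv.coe_fn_injective (Prod.mk.inj hef).2
      _ ≤ ∑ t ∈ II n, (Nat.card {r : P (Fin n) // Inv t.1 t.2 r.1} : ℝ) := by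
          refine Finset.sum_le_sum_of_subset_of_nonneg ?_ fun _ _ _ => by positivity
          intro t ht
          obtain ⟨e, he, rfl⟩ := Finset.mem_image.1 ht
          refine Finset.mem_filter.2 ⟨Finset.mem_univ _, by simp, ⟨by simp, ?_⟩, ?_⟩
          · exact fun a b _ _ hab => e.injective hab
          · by_contra hcon
            push Not at hcon
            exact (Finset.mem_erase.1 he).1 (Equiv.ext hcon)

end Burnside

end Pool.Agent.Helper87.PD
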