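import Pool.Agent.Helper87.PD.Grow2

/-!
# Partial orders with a partial automorphism

`X` is the set of deleted points, `g` is the identity on `X` and injective outside `X`; `r` is invariant under `g`
outside `X`.
-/

namespace Pool.Agent.Helper87.PD

/-- `r` is invariant under `g` outside `X`. -/
def Inv {n : ℕ} (X : Finset (Fin n)) (g : Fin n → Fin n) (r : Fin n → Fin n → Prop) : Prop :=
  ∀ a b, a ∉ X → b ∉ X → (r a b ↔ r (g a) (g b))

/-- The admissible pairs. -/
def Adm {n : ℕ} (X : Finset (Fin n)) (g : Fin n → Fin n) : Prop :=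
  (∀ a ∈ X, g a = a) ∧ ∀ a b, a ∉ X → b ∉ X → g a = g b → a = b

/-- The moved points. -/
def mv {n : ℕ} (g : Fin n → Fin n) : Finset (Fin n) := Finset.univ.filter fun a => g a ≠ a

theorem enc_count {n : ℕ} (X B : Finset (Fin n)) (g : Fin n → Fin n) (hg : Adm X g)
    (hBX : ∀ b ∈ B, b ∉ X) (hgB : ∀ b ∈ B, g b ∉ B) :
    Nat.card {r : P (Fin n) // Inv X g r.1} ≤
      pp (n - B.card) * 4 ^ (B.card * (2 * B.card + X.card)) := by
  classical
  set U : Finset (Fin n) := B ∪ X ∪ (Finset.univ.filter fun j => j ∉ X ∧ g j ∈ B) with hU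
  have hUc : U.card ≤ 2 * B.card + X.card := by
    have h1 : (Finset.univ.filter fun j => j ∉ X ∧ g j ∈ B).card ≤ B.card := by
      refine Finset.card_le_card_of_injOn g ?_ ?_
      · intro j hj
        have h2 := Finset.mem_coe.1 hj
        rw [Finset.mem_filter] at h2
        exact h2.2.2
      · intro a ha b hb hab
        have ha' := Finset.mem_coe.1 ha
        have hb' := Finset.mem_coe.1 hb
        rw [Finset.mem_filter] at ha' hb'
        exact hg.2 a b ha'.2.1 hb'.2.1 hab
    have h2 := Finset.card_union_le (B ∪ X) (Finset.univ.filter fun j => j ∉ X ∧ g j ∈ B)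
    have h3 := Finset.card_union_le B X
    rw [hU]
    omega
  have hUn : ∀ b, b ∉ U → b ∉ B ∧ b ∉ X ∧ g b ∉ B := by
    intro b hb
    rw [hU, Finset.mem_union, Finset.mem_union, Finset.mem_filter] at hb
    push Not at hb
    refine ⟨hb.1.1, hb.1.2, fun h => ?_⟩
    exact hb.2 (Finset.mem_univ _) hb.1.2 h
  let F : {r : P (Fin n) // Inv X g r.1} → P {a : Fin n // a ∉ B} × (B → U → Prop × Prop) :=
    fun r => (⟨fun a b => r.1.1 a b, isPO_comap r.1.2 _ Subtype.val_injective⟩,
      fun i j => (r.1.1 i j, r.1.1 j i))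
  have hF : Function.Injective F := by
    rintro ⟨⟨r, hr⟩, hrI⟩ ⟨⟨s, hs⟩, hsI⟩ h
    apply Subtype.ext
    apply Subtype.ext
    show r = s
    change Inv X g r at hrI
    change Inv X g s at hsI
    have h1 : ∀ a b, a ∉ B → b ∉ B → (r a b ↔ s a b) := by
      intro a b ha hb
      have := congrArg (fun t => t.1.1 ⟨a, ha⟩ ⟨b, hb⟩) h
      exact iff_of_eq this
    have h2 : ∀ i ∈ B, ∀ j ∈ U, (r i j ↔ s i j) ∧ (r j i ↔ s j i) := by
      intro i hi j hj
      have h3 := congrArg (fun t => (t.2 ⟨i, hi⟩ ⟨j, hj⟩).1) h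
      have h4 := congrArg (fun t => (t.2 ⟨i, hi⟩ ⟨j, hj⟩).2) h
      exact ⟨iff_of_eq h3, iff_of_eq h4⟩
    funext a b
    apply propext
    by_cases ha : a ∈ B
    · by_cases hb : b ∈ U
      · exact (h2 a ha b hb).1
      · obtain ⟨h3, h4, h5⟩ := hUn b hb
        rw [hrI a b (hBX a ha) h4, hsI a b (hBX a ha) h4]
        exact h1 _ _ (hgB a ha) h5
    · by_cases hb : b ∈ B
      · by_cases ha' : a ∈ U
        · exact (h2 b hb a ha').2
        · obtain ⟨h3, h4, h5⟩ := hUn a ha'
          rw [hrI a b h4 (hBX b hb), hsI a b h4 (hBX b hb)]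
          exact h1 _ _ h5 (hgB b hb)
      · exact h1 a b ha hb
  have hc1 : Nat.card (P {a : Fin n // a ∉ B}) = pp (n - B.card) := by
    rw [card_P]
    congr 1
    rw [Nat.card_eq_fintype_card, Fintype.card_subtype_compl, Fintype.card_fin,
      Fintype.card_coe]
  have hc2 : Nat.card (B → U → Prop × Prop) = 4 ^ (B.card * U.card) := by
    rw [Nat.card_fun, Nat.card_fun, Nat.card_prod]
    simp only [Nat.card_eq_fintype_card, Fintype.card_prop, Fintype.card_coe]
    rw [← pow_mul, mul_comm U.card]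
  calc Nat.card {r : P (Fin n) // Inv X g r.1}
      ≤ Nat.card (P {a : Fin n // a ∉ B} × (B → U → Prop × Prop)) :=
        Nat.card_le_card_of_injective F hF
    _ = pp (n - B.card) * 4 ^ (B.card * U.card) := by rw [Nat.card_prod, hc1, hc2]
    _ ≤ pp (n - B.card) * 4 ^ (B.card * (2 * B.card + X.card)) := by
        refine Nat.mul_le_mul_left _ (Nat.pow_le_pow_right (by norm_num) ?_)
        exact Nat.mul_le_mul_left _ hUc

theorem exists_indep {n : ℕ} (X : Finset (Fin n)) (g : Fin n → Fin n) (hg : Adm X g) :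
    ∃ B ⊆ mv g, (∀ b ∈ B, g b ∉ B) ∧ (mv g).card ≤ 3 * B.card := by
  classical
  obtain ⟨B, hB, hmax⟩ := Finset.exists_max_image
    ((mv g).powerset.filter fun B => ∀ b ∈ B, g b ∉ B) Finset.card
    ⟨∅, by simp⟩
  rw [Finset.mem_filter, Finset.mem_powerset] at hB
  refine ⟨B, hB.1, hB.2, ?_⟩
  have hsub : mv g ⊆ B ∪ (mv g).filter (fun a => g a ∈ B) ∪ B.image g := by
    intro m hm
    by_contra hcon
    rw [Finset.mem_union, Finset.mem_union, Finset.mem_filter] at hcon
    push Not at hcon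
    obtain ⟨⟨h1, h2⟩, h3⟩ := hcon
    have h2' := h2 hm
    have hmm : g m ≠ m := (Finset.mem_filter.1 hm).2
    have h4 : insert m B ∈ (mv g).powerset.filter fun B => ∀ b ∈ B, g b ∉ B := by
      rw [Finset.mem_filter, Finset.mem_powerset]
      refine ⟨Finset.insert_subset hm hB.1, ?_⟩
      intro b hb
      rw [Finset.mem_insert] at hb
      rw [Finset.mem_insert, not_or]
      rcases hb with rfl | hb
      · exact ⟨hmm, h2'⟩
      · refine ⟨?_, hB.2 b hb⟩
        rintro rfl
        exact h3 (Finset.mem_image_of_mem g hb)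
    have h5 := hmax _ h4
    rw [Finset.card_insert_of_notMem h1] at h5
    omega
  have hmX : ∀ a ∈ mv g, a ∉ X := by
    intro a ha haX
    exact (Finset.mem_filter.1 ha).2 (hg.1 a haX)
  have h1 : ((mv g).filter (fun a => g a ∈ B)).card ≤ B.card := by
    refine Finset.card_le_card_of_injOn g ?_ ?_
    · intro j hj
      exact (Finset.mem_filter.1 (Finset.mem_coe.1 hj)).2
    · intro a ha b hb hab
      exact hg.2 a b (hmX a (Finset.mem_filter.1 (Finset.mem_coe.1 ha)).1)
        (hmX b (Finset.mem_filter.1 (Finset.mem_coe.1 hb)).1) hab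
  have h2 := Finset.card_le_card hsub
  have h3 := Finset.card_union_le (B ∪ (mv g).filter (fun a => g a ∈ B)) (B.image g)
  have h4 := Finset.card_union_le B ((mv g).filter (fun a => g a ∈ B))
  have h5 : (B.image g).card ≤ B.card := Finset.card_image_le
  omega

/-- the main estimate for one pair -/
theorem one_pair {n : ℕ} (hn : 1000 ≤ n) (X : Finset (Fin n)) (g : Fin n → Fin n) (hg : Adm X g)
    (hX : X.card ≤ n / 1024) (b : ℕ) (hb : 3 * b ≤ (mv g).card + 2) (hb2 : b ≤ n / 128) :
    Nat.card {r : P (Fin n) // Inv X g r.1} * 2 ^ (b * (n / 12)) ≤ pp n := by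
  classical
  obtain ⟨B₀, hB₀, hg₀, hc₀⟩ := exists_indep X g hg
  obtain ⟨B, hB, hBc⟩ := Finset.exists_subset_card_eq (show b ≤ B₀.card by omega)
  have h1 := enc_count X B g hg
    (fun a ha haX => (Finset.mem_filter.1 (hB₀ (hB ha))).2 (hg.1 a haX))
    (fun a ha h => hg₀ a (hB ha) (hB h))
  rw [hBc] at h1
  have h2 := growth_iter (n - b) b (by omega)
  rw [Nat.sub_add_cancel (by omega : b ≤ n)] at h2
  have h3 : n / 12 + 2 * (2 * b + X.card) + 1 ≤ (n - b) / 8 := by omega
  have h4 : (4 : ℕ) ^ (b * (2 * b + X.card)) = 2 ^ (b * (2 * (2 * b + X.card))) := by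
    rw [show (4 : ℕ) = 2 ^ 2 by norm_num, ← pow_mul]
    congr 1
    ring
  have h5 : 2 ^ b * (Nat.card {r : P (Fin n) // Inv X g r.1} * 2 ^ (b * (n / 12))) ≤
      2 ^ b * pp n := by
    calc 2 ^ b * (Nat.card {r : P (Fin n) // Inv X g r.1} * 2 ^ (b * (n / 12)))
        ≤ 2 ^ b * ((pp (n - b) * 2 ^ (b * (2 * (2 * b + X.card)))) * 2 ^ (b * (n / 12))) := by
          rw [h4] at h1
          gcongr
      _ = pp (n - b) * 2 ^ (b * (n / 12 + 2 * (2 * b + X.card) + 1)) := by
          rw [mul_add b, mul_add b, mul_one, pow_add, pow_add]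
          ring
      _ ≤ pp (n - b) * 2 ^ (b * ((n - b) / 8)) := by
          gcongr
          norm_num
      _ ≤ 2 ^ b * pp n := h2
  exact Nat.le_of_mul_le_mul_left h5 (by positivity)

end Pool.Agent.Helper87.PD
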