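import Pool.Agent.Helper87.PD.Defs

/-!
# The number of partial orders grows fast: `p (m + 1) ≥ p m * 2 ^ (m / 8) / 2`
-/

namespace Pool.Agent.Helper87.PD

/-- The type of the partial orders on `α`. -/
abbrev P (α : Type) := {r : α → α → Prop // IsPO r}

noncomputable instance {α : Type} [Finite α] : Fintype (P α) := Fintype.ofFinite _

noncomputable instance {α : Type} [Finite α] (N : ℕ) (f : P α → ℕ) :
    Fintype {r : P α // f r ≤ N} := Fintype.ofFinite _

/-- The number of partial orders on `m` points. -/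
noncomputable def pp (m : ℕ) : ℕ := Nat.card (P (Fin m))

/-- The down-sets. -/
abbrev Dn {α : Type} (r : α → α → Prop) := {D : Set α // ∀ a b, r a b → b ∈ D → a ∈ D}

/-- The number of down-sets. -/
noncomputable def JJ {α : Type} (r : α → α → Prop) : ℕ := Nat.card (Dn r)

theorem isPO_comap {α β : Type} {r : β → β → Prop} (h : IsPO r) (f : α → β)
    (hf : Function.Injective f) : IsPO (fun a b => r (f a) (f b)) :=
  ⟨fun a => h.1 _, fun a b h1 h2 => hf (h.2.1 _ _ h1 h2), fun a b c h1 h2 => h.2.2 _ _ _ h1 h2⟩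

theorem card_P_congr {α β : Type} (e : α ≃ β) : Nat.card (P α) = Nat.card (P β) := by
  refine Nat.card_congr
    { toFun := fun r => ⟨fun a b => r.1 (e.symm a) (e.symm b), isPO_comap r.2 _ e.symm.injective⟩
      invFun := fun r => ⟨fun a b => r.1 (e a) (e b), isPO_comap r.2 _ e.injective⟩
      left_inv := fun r => by ext a b; simp
      right_inv := fun r => by ext a b; simp }

theorem card_P {α : Type} [Finite α] : Nat.card (P α) = pp (Nat.card α) :=
  card_P_congr (Finite.equivFin α)

/-- the new point `none` above the down-set `D` -/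
def addTop {α : Type} (r : α → α → Prop) (D : Set α) : Option α → Option α → Prop
  | some a, some b => r a b
  | some a, none => a ∈ D
  | none, none => True
  | none, some _ => False

theorem isPO_addTop {α : Type} {r : α → α → Prop} (h : IsPO r) (D : Dn r) :
    IsPO (addTop r D.1) := by
  refine ⟨?_, ?_, ?_⟩
  · rintro (_ | a)
    · trivial
    · exact h.1 a
  · rintro (_ | a) (_ | b) h1 h2
    · rfl
    · exact h1.elim
    · exact h2.elim
    · exact congrArg some (h.2.1 a b h1 h2)
  · rintro (_ | a) (_ | b) (_ | c) h1 h2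
    · trivial
    · exact h2
    · trivial
    · exact h1.elim
    · exact h1
    · exact h2.elim
    · exact D.2 a b h1 h2
    · exact h.2.2 a b c h1 h2

theorem sum_JJ_le (m : ℕ) : ∑ r : P (Fin m), JJ r.1 ≤ pp (m + 1) := by
  classical
  have h1 : pp (m + 1) = Nat.card (P (Option (Fin m))) := by
    rw [card_P]
    simp
  have h2 : ∑ r : P (Fin m), JJ r.1 = Nat.card (Σ r : P (Fin m), Dn r.1) := by
    rw [Nat.card_sigma]
    rfl
  rw [h1, h2]
  refine Nat.card_le_card_of_injective
    (fun x => (⟨addTop x.1.1 x.2.1, isPO_addTop x.1.2 x.2⟩ : P (Option (Fin m)))) ?_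
  rintro ⟨⟨r, hr⟩, ⟨D, hD⟩⟩ ⟨⟨r', hr'⟩, ⟨D', hD'⟩⟩ h
  have h3 : addTop r D = addTop r' D' := congrArg Subtype.val h
  have h4 : r = r' := by
    funext a b
    exact congrFun (congrFun h3 (some a)) (some b)
  subst h4
  have h5 : D = D' := by
    ext a
    have := congrFun (congrFun h3 (some a)) none
    exact iff_of_eq this
  subst h5
  rfl

/-- The number of partial orders with at most `N` down-sets. -/
noncomputable def few (N m : ℕ) : ℕ := Nat.card {r : P (Fin m) // JJ r.1 ≤ N}

theorem exists_max {m : ℕ} {r : Fin (m + 1) → Fin (m + 1) → Prop} (h : IsPO r) :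
    ∃ x, ∀ a, r x a → a = x := by
  classical
  obtain ⟨x, hx⟩ := Finset.exists_max_image (Finset.univ : Finset (Fin (m + 1)))
    (fun x => (Finset.univ.filter fun a => r a x).card) Finset.univ_nonempty
  refine ⟨x, fun a ha => ?_⟩
  have h1 := hx.2 a (Finset.mem_univ a)
  by_contra hne
  have h2 : (Finset.univ.filter fun b => r b x) ⊂ (Finset.univ.filter fun b => r b a) := by
    rw [Finset.ssubset_iff_of_subset]
    · refine ⟨a, by simpa using h.1 a, ?_⟩
      simp only [Finset.mem_filter, Finset.mem_univ, true_and]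
      intro h3
      exact hne (h.2.1 _ _ h3 ha)
    · intro b hb
      simp only [Finset.mem_filter, Finset.mem_univ, true_and] at hb ⊢
      exact h.2.2 _ _ _ hb ha
  have h3 := Finset.card_lt_card h2
  omega

theorem few_succ (N m : ℕ) : few N (m + 1) ≤ (m + 1) * (few N m * N) := by
  classical
  choose mx hmx using fun r : P (Fin (m + 1)) => exists_max r.2
  let T := Σ _ : Fin (m + 1), Σ r' : {r : P (Fin m) // JJ r.1 ≤ N}, Dn r'.1.1
  have hT : Nat.card T ≤ (m + 1) * (few N m * N) := by
    rw [Nat.card_sigma]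
    have h1 : Nat.card (Σ r' : {r : P (Fin m) // JJ r.1 ≤ N}, Dn r'.1.1) ≤ few N m * N := by
      rw [Nat.card_sigma]
      calc ∑ r' : {r : P (Fin m) // JJ r.1 ≤ N}, Nat.card (Dn r'.1.1)
          ≤ ∑ _r' : {r : P (Fin m) // JJ r.1 ≤ N}, N := Finset.sum_le_sum fun r' _ => r'.2
        _ = few N m * N := by
          rw [Finset.sum_const, smul_eq_mul, Finset.card_univ, few, Nat.card_eq_fintype_card]
    calc ∑ _x : Fin (m + 1), Nat.card (Σ r' : {r : P (Fin m) // JJ r.1 ≤ N}, Dn r'.1.1)
        ≤ ∑ _x : Fin (m + 1), few N m * N := Finset.sum_le_sum fun _ _ => h1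
      _ = (m + 1) * (few N m * N) := by
        rw [Finset.sum_const, smul_eq_mul, Finset.card_univ, Fintype.card_fin]
  refine le_trans ?_ hT
  have hres : ∀ r : P (Fin (m + 1)), JJ r.1 ≤ N →
      JJ (fun a b => r.1 ((mx r).succAbove a) ((mx r).succAbove b)) ≤ N := by
    intro r hr
    refine le_trans ?_ hr
    refine Nat.card_le_card_of_injective
      (fun D => (⟨(mx r).succAbove '' D.1, ?_⟩ : Dn r.1)) ?_
    · rintro a b hab ⟨b', hb', rfl⟩
      have hne : a ≠ mx r := by
        rintro rfl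
        exact (Fin.succAbove_ne _ _) (hmx r _ hab)
      obtain ⟨a', rfl⟩ := Fin.exists_succAbove_eq hne
      exact ⟨a', D.2 a' b' hab hb', rfl⟩
    · intro D D' h
      have h1 : (mx r).succAbove '' D.1 = (mx r).succAbove '' D'.1 := congrArg Subtype.val h
      exact Subtype.ext (Set.image_injective.mpr Fin.succAbove_right_injective h1)
  let F : {r : P (Fin (m + 1)) // JJ r.1 ≤ N} → T := fun r =>
    ⟨mx r.1, ⟨⟨⟨fun a b => r.1.1 ((mx r.1).succAbove a) ((mx r.1).succAbove b),
      isPO_comap r.1.2 _ Fin.succAbove_right_injective⟩, hres r.1 r.2⟩,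
      ⟨{a | r.1.1 ((mx r.1).succAbove a) (mx r.1)}, fun a b hab hb => r.1.2.2.2 _ _ _ hab hb⟩⟩⟩
  refine Nat.card_le_card_of_injective F ?_
  rintro ⟨⟨r, hr⟩, hrN⟩ ⟨⟨s, hs⟩, hsN⟩ h
  apply Subtype.ext
  apply Subtype.ext
  show r = s
  have hx : mx ⟨r, hr⟩ = mx ⟨s, hs⟩ := congrArg Sigma.fst h
  have h2 : ∀ a b : Fin m, r ((mx ⟨r, hr⟩).succAbove a) ((mx ⟨r, hr⟩).succAbove b) ↔
      s ((mx ⟨s, hs⟩).succAbove a) ((mx ⟨s, hs⟩).succAbove b) := by
    intro a b
    have := congrArg (fun t : T => t.2.1.1.1 a b) h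
    exact iff_of_eq this
  have h3 : ∀ a : Fin m, r ((mx ⟨r, hr⟩).succAbove a) (mx ⟨r, hr⟩) ↔
      s ((mx ⟨s, hs⟩).succAbove a) (mx ⟨s, hs⟩) := by
    intro a
    have := congrArg (fun t : T => a ∈ t.2.2.1) h
    exact iff_of_eq this
  have hmr := hmx ⟨r, hr⟩
  have hms := hmx ⟨s, hs⟩
  rw [← hx] at h2 h3 hms
  funext a b
  apply propext
  by_cases ha : a = mx ⟨r, hr⟩
  · subst ha
    constructor
    · intro h4
      rw [hmr b h4]
      exact hs.1 _
    · intro h4
      rw [hms b h4]
      exact hr.1 _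
  · obtain ⟨a', rfl⟩ := Fin.exists_succAbove_eq ha
    by_cases hb : b = mx ⟨r, hr⟩
    · subst hb
      exact h3 a'
    · obtain ⟨b', rfl⟩ := Fin.exists_succAbove_eq hb
      exact h2 a' b'

theorem few_le (N m : ℕ) (hN : 1 ≤ N) : few N m ≤ m.factorial * N ^ m := by
  induction m with
  | zero =>
    have : Subsingleton {r : P (Fin 0) // JJ r.1 ≤ N} := by
      constructor
      rintro ⟨⟨r, hr⟩, h⟩ ⟨⟨s, hs⟩, h'⟩
      apply Subtype.ext
      apply Subtype.ext
      funext a
      exact a.elim0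
    have := Finite.card_le_one_iff_subsingleton.mpr this
    simpa [few] using this
  | succ m ih =>
    calc few N (m + 1) ≤ (m + 1) * (few N m * N) := few_succ N m
      _ ≤ (m + 1) * ((m.factorial * N ^ m) * N) := by gcongr
      _ = (m + 1).factorial * N ^ (m + 1) := by
        rw [Nat.factorial_succ, pow_succ]
        ring

theorem pow_le_pp (a b : ℕ) : 2 ^ (a * b) ≤ pp (a + b) := by
  classical
  have h1 : pp (a + b) = Nat.card (P (Fin a ⊕ Fin b)) := by
    rw [card_P]
    simp
  rw [h1]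
  have h2 : 2 ^ (a * b) = Nat.card (Fin a → Fin b → Prop) := by
    rw [Nat.card_fun, Nat.card_fun]
    simp [← pow_mul, mul_comm]
  rw [h2]
  let G : (Fin a → Fin b → Prop) → Fin a ⊕ Fin b → Fin a ⊕ Fin b → Prop := fun E x y =>
    x = y ∨ ∃ i j, x = Sum.inl i ∧ y = Sum.inr j ∧ E i j
  have hG : ∀ E, IsPO (G E) := by
    intro E
    refine ⟨fun x => Or.inl rfl, ?_, ?_⟩
    · rintro x y (h | ⟨i, j, rfl, rfl, h⟩) h2
      · exact h
      · rcases h2 with h2 | ⟨i', j', h3, _, _⟩
        · exact h2.symm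
        · exact absurd h3 (by simp)
    · rintro x y z (rfl | ⟨i, j, rfl, rfl, h⟩) h2
      · exact h2
      · rcases h2 with rfl | ⟨i', j', h3, _, _⟩
        · exact Or.inr ⟨i, j, rfl, rfl, h⟩
        · exact absurd h3 (by simp)
  refine Nat.card_le_card_of_injective (fun E => (⟨G E, hG E⟩ : P (Fin a ⊕ Fin b))) ?_
  intro E E' h
  have h3 : G E = G E' := congrArg Subtype.val h
  funext i j
  apply propext
  have key : ∀ E : Fin a → Fin b → Prop, G E (Sum.inl i) (Sum.inr j) ↔ E i j := by
    intro E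
    constructor
    · rintro (h | ⟨i', j', h1, h2, h⟩)
      · exact absurd h (by simp)
      · have := Sum.inl.inj h1
        have := Sum.inr.inj h2
        subst_vars
        exact h
    · intro h
      exact Or.inr ⟨i, j, rfl, rfl, h⟩
  rw [← key E, ← key E', h3]

end Pool.Agent.Helper87.PD
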