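import Pool.Agent.Helper87.PD.Grow

/-!
# The growth inequality
-/

namespace Pool.Agent.Helper87.PD

theorem lin_le_pow (j : ℕ) (hj : 9 ≤ j) : 16 * j + 16 ≤ 2 ^ (j - 1) := by
  induction j, hj using Nat.le_induction with
  | base => norm_num
  | succ j hj ih =>
    have h1 : 2 ^ (j + 1 - 1) = 2 * 2 ^ (j - 1) := by
      rw [← pow_succ']
      congr 1
      omega
    rw [h1]
    omega

theorem fact_bound (m : ℕ) (hm : 144 ≤ m) :
    2 * (m.factorial * (2 ^ (m / 8)) ^ m) ≤ 2 ^ ((m / 2) * (m - m / 2)) := by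
  have h1 : m ≤ 2 ^ (m / 16 - 1) := by
    have := lin_le_pow (m / 16) (by omega)
    omega
  have h2 : m.factorial ≤ 2 ^ ((m / 16 - 1) * m) := by
    calc m.factorial ≤ m ^ m := Nat.factorial_le_pow m
      _ ≤ (2 ^ (m / 16 - 1)) ^ m := Nat.pow_le_pow_left h1 m
      _ = 2 ^ ((m / 16 - 1) * m) := (pow_mul _ _ _).symm
  calc 2 * (m.factorial * (2 ^ (m / 8)) ^ m)
      ≤ 2 * (2 ^ ((m / 16 - 1) * m) * (2 ^ (m / 8)) ^ m) := by gcongr
    _ = 2 ^ (1 + ((m / 16 - 1) * m + m / 8 * m)) := by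
        rw [← pow_mul, ← pow_add, pow_add 2 1, pow_one]
    _ ≤ 2 ^ ((m / 2) * (m - m / 2)) := by
        refine Nat.pow_le_pow_right (by norm_num) ?_
        obtain ⟨k, hk⟩ : ∃ k, k = m / 2 := ⟨_, rfl⟩
        obtain ⟨a, ha⟩ : ∃ a, a = m / 16 - 1 := ⟨_, rfl⟩
        obtain ⟨c, hc⟩ : ∃ c, c = m / 8 := ⟨_, rfl⟩
        rw [← hk, ← ha, ← hc]
        have h3 : k ≤ m - k := by omega
        have h4 : m ≤ 2 * k + 1 := by omega
        have h5 : 8 * a ≤ k := by omega
        have h6 : 4 * c ≤ k := by omega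
        have h7 : 72 ≤ k := by omega
        have h8 : k * k ≤ k * (m - k) := Nat.mul_le_mul_left k h3
        have h9 : a * m ≤ a * (2 * k + 1) := Nat.mul_le_mul_left a h4
        have h10 : c * m ≤ c * (2 * k + 1) := Nat.mul_le_mul_left c h4
        nlinarith

theorem few_le_half (m : ℕ) (hm : 144 ≤ m) : 2 * few (2 ^ (m / 8)) m ≤ pp m := by
  calc 2 * few (2 ^ (m / 8)) m ≤ 2 * (m.factorial * (2 ^ (m / 8)) ^ m) :=
        Nat.mul_le_mul_left 2 (few_le _ m Nat.one_le_two_pow)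
    _ ≤ 2 ^ ((m / 2) * (m - m / 2)) := fact_bound m hm
    _ ≤ pp (m / 2 + (m - m / 2)) := pow_le_pp _ _
    _ = pp m := by congr 1; omega

theorem growth (m : ℕ) (hm : 144 ≤ m) : pp m * 2 ^ (m / 8) ≤ 2 * pp (m + 1) := by
  classical
  set N := 2 ^ (m / 8) with hN
  have h1 : pp m * N ≤ few N m * N + ∑ r : P (Fin m), JJ r.1 := by
    have h2 : ∀ r : P (Fin m), N ≤ (if JJ r.1 ≤ N then N else 0) + JJ r.1 := by
      intro r
      split_ifs with h
      · omega
      · omega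
    calc pp m * N = ∑ _r : P (Fin m), N := by
          rw [Finset.sum_const, smul_eq_mul, Finset.card_univ, pp, Nat.card_eq_fintype_card]
      _ ≤ ∑ r : P (Fin m), ((if JJ r.1 ≤ N then N else 0) + JJ r.1) :=
          Finset.sum_le_sum fun r _ => h2 r
      _ = few N m * N + ∑ r : P (Fin m), JJ r.1 := by
          rw [Finset.sum_add_distrib, ← Finset.sum_filter, Finset.sum_const, smul_eq_mul]
          congr 2
          rw [few, Nat.card_eq_fintype_card, Fintype.card_subtype]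
  have h3 := sum_JJ_le m
  have h4 := few_le_half m hm
  rw [← hN] at h4
  nlinarith

theorem growth_iter (m b : ℕ) (hm : 144 ≤ m) :
    pp m * 2 ^ (b * (m / 8)) ≤ 2 ^ b * pp (m + b) := by
  induction b with
  | zero => simp
  | succ b ih =>
    have h1 := growth (m + b) (by omega)
    have h2 : 2 ^ (m / 8) ≤ 2 ^ ((m + b) / 8) :=
      Nat.pow_le_pow_right (by norm_num) (Nat.div_le_div_right (by omega))
    calc pp m * 2 ^ ((b + 1) * (m / 8)) = pp m * 2 ^ (b * (m / 8)) * 2 ^ (m / 8) := by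
          rw [add_mul, one_mul, pow_add]
          ring
      _ ≤ 2 ^ b * pp (m + b) * 2 ^ ((m + b) / 8) := Nat.mul_le_mul ih h2
      _ = 2 ^ b * (pp (m + b) * 2 ^ ((m + b) / 8)) := by ring
      _ ≤ 2 ^ b * (2 * pp (m + b + 1)) := Nat.mul_le_mul_left _ h1
      _ = 2 ^ (b + 1) * pp (m + (b + 1)) := by
          rw [pow_succ]
          ring_nf

end Pool.Agent.Helper87.PD
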