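import Pool.Agent.Helper87.PD.Cls

/-!
# Almost all ordered sets are determined by any three cards
-/

namespace Pool.Agent.Helper87.PD

theorem rpow_bound {n : ℕ} {A B T : ℝ} (hA : A ≤ 2 * T) (hT : T * 2 ^ (n / 16 + 2) ≤ B) (hB : 0 ≤ B) :
    A ≤ (2 : ℝ) ^ (-(n : ℝ) / 16) * B := by
  have h1 : (2 : ℝ) ^ ((n : ℝ) / 16) ≤ 2 ^ (n / 16 + 1) := by
    rw [← Real.rpow_natCast]
    refine Real.rpow_le_rpow_of_exponent_le (by norm_num) ?_
    have h2 : n ≤ 16 * (n / 16 + 1) := by omega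
    have h3 : (n : ℝ) ≤ 16 * ((n / 16 + 1 : ℕ) : ℝ) := by exact_mod_cast h2
    linarith
  have h4 : (0 : ℝ) < 2 ^ ((n : ℝ) / 16) := Real.rpow_pos_of_pos (by norm_num) _
  have h5 : (2 : ℝ) ^ (-(n : ℝ) / 16) = (2 ^ ((n : ℝ) / 16))⁻¹ := by
    rw [neg_div, Real.rpow_neg (by norm_num)]
  rw [h5, inv_mul_eq_div, le_div_iff₀ h4]
  by_cases hT0 : 0 ≤ T
  · calc A * 2 ^ ((n : ℝ) / 16) ≤ (2 * T) * 2 ^ ((n : ℝ) / 16) :=
          mul_le_mul_of_nonneg_right hA h4.le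
      _ ≤ (2 * T) * 2 ^ (n / 16 + 1) := mul_le_mul_of_nonneg_left h1 (by positivity)
      _ = T * 2 ^ (n / 16 + 2) := by ring
      _ ≤ B := hT
  · push Not at hT0
    have hA0 : A ≤ 0 := by linarith
    exact le_trans (mul_nonpos_of_nonpos_of_nonneg hA0 h4.le) hB

theorem labelled {n : ℕ} (hn : 4000000 ≤ n) :
    (Nat.card {r : Fin n → Fin n → Prop // IsPO r ∧ ¬ Determined r} : ℝ) ≤
      (2 : ℝ) ^ (-(n : ℝ) / 16) * Nat.card {r : Fin n → Fin n → Prop // IsPO r} := by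
  classical
  refine rpow_bound (T := ∑ t ∈ II n, (Nat.card {r : P (Fin n) // Inv t.1 t.2 r.1} : ℝ)) ?_
    (total hn) (Nat.cast_nonneg _)
  have h1 : (Nat.card {r : Fin n → Fin n → Prop // IsPO r ∧ ¬ Determined r} : ℝ) ≤
      (Nat.card {r : P (Fin n) // ¬ Rigid r.1} : ℝ) := by
    have h2 : Nat.card {r : Fin n → Fin n → Prop // IsPO r ∧ ¬ Determined r} ≤
        Nat.card {r : P (Fin n) // ¬ Rigid r.1} := by
      refine Nat.card_le_card_of_injective (fun r =>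
        (⟨⟨r.1, r.2.1⟩, fun h => r.2.2 (determined_of_rigid h)⟩ :
          {r : P (Fin n) // ¬ Rigid r.1})) ?_
      intro r s h
      apply Subtype.ext
      exact congrArg (fun t : {r : P (Fin n) // ¬ Rigid r.1} => t.1.1) h
    exact_mod_cast h2
  have h3 := card_not_rigid (n := n)
  have h4 : (0 : ℝ) ≤ ∑ t ∈ II n, (Nat.card {r : P (Fin n) // Inv t.1 t.2 r.1} : ℝ) :=
    Finset.sum_nonneg fun _ _ => Nat.cast_nonneg _
  linarith

theorem unlabelled {n : ℕ} (hn : 4000000 ≤ n) :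
    (classes (fun r : Fin n → Fin n → Prop => IsPO r ∧ ¬ Determined r) : ℝ) ≤
      (2 : ℝ) ^ (-(n : ℝ) / 16) * classes (fun r : Fin n → Fin n → Prop => IsPO r) := by
  classical
  have hf : (0 : ℝ) < n.factorial := by exact_mod_cast n.factorial_pos
  have h1 := rpow_bound (n := n) (classes_not_le (n := n)) (total hn) (Nat.cast_nonneg _)
  have h2 : (pp n : ℝ) ≤ classes (fun r : Fin n → Fin n → Prop => IsPO r) * n.factorial := by
    exact_mod_cast pp_le_classes (n := n)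
  have h3 : (0 : ℝ) < (2 : ℝ) ^ (-(n : ℝ) / 16) := Real.rpow_pos_of_pos (by norm_num) _
  have h4 := h1.trans (mul_le_mul_of_nonneg_left h2 h3.le)
  rw [← mul_assoc] at h4
  exact le_of_mul_le_mul_right h4 hf

theorem main {n : ℕ} (hn : 4000000 ≤ n) :
    (Nat.card {r : Fin n → Fin n → Prop // IsPO r ∧ ¬ Determined r} : ℝ) ≤
        (2 : ℝ) ^ (-(n : ℝ) / 16) * Nat.card {r : Fin n → Fin n → Prop // IsPO r} ∧
    (classes (fun r : Fin n → Fin n → Prop => IsPO r ∧ ¬ Determined r) : ℝ) ≤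
        (2 : ℝ) ^ (-(n : ℝ) / 16) * classes (fun r : Fin n → Fin n → Prop => IsPO r) ∧
    ∀ r s : Fin n → Fin n → Prop, IsPO r → Determined r → IsPO s →
      (SameDeck r s → Iso r s ∧ dim r = dim s) ∧
      (∀ x y : Fin 3 → Fin n, Function.Injective y → (∀ i, Iso (del r (x i)) (del s (y i))) →
        Iso r s ∧ dim r = dim s) ∧
      ∀ k ≤ n / 2048, SameKDeck k r s → Iso r s ∧ dim r = dim s := by
  refine ⟨labelled hn, unlabelled hn, fun r s _ h hs => ⟨fun h1 => ?_, fun x y hy h1 => ?_,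
    fun k hk h1 => ?_⟩⟩
  · have h2 := same_deck (by omega) h hs h1
    exact ⟨h2, dim_eq_of_iso h2⟩
  · have h2 := three_cards (by omega) h hs x y hy h1
    exact ⟨h2, dim_eq_of_iso h2⟩
  · have h2 := same_kdeck (by omega) hk h hs h1
    exact ⟨h2, dim_eq_of_iso h2⟩

end Pool.Agent.Helper87.PD
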