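import Pool.Agent.Helper87.PD.Sum

/-!
# Rigid ordered sets are determined by large ordered subsets which cover all pairs
-/

namespace Pool.Agent.Helper87.PD

/-- `r` has no partial automorphism other than restrictions of the identity with at most `n / 1024` points deleted. -/
def Rigid {n : ℕ} (r : Fin n → Fin n → Prop) : Prop :=
  ∀ (X : Finset (Fin n)) (g : Fin n → Fin n), X.card ≤ n / 1024 → Adm X g → Inv X g r →
    ∀ a, g a = a

theorem determined_of_rigid {n : ℕ} {r : Fin n → Fin n → Prop} (h : Rigid r) :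
    Determined r := by
  classical
  intro s _ ι A A' hA hiso hcov
  choose f hf using hiso
  -- the maps in the other direction
  have hcard : ∀ i, n ≤ (A' i).card + n / 2048 := by
    intro i
    have h1 : (A i).card = (A' i).card := by
      rw [← Fintype.card_coe, ← Fintype.card_coe]
      exact Fintype.card_congr (f i)
    rw [← h1]
    exact hA i
  have key : ∀ i j (u : Fin n) (hi : u ∈ A' i) (hj : u ∈ A' j),
      (((f i).symm ⟨u, hi⟩ : A i) : Fin n) = ((f j).symm ⟨u, hj⟩ : A j) := by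
    intro i j u hi hj
    -- the partial map
    let Q : Fin n → Prop := fun a => ∃ ha : a ∈ A i, ((f i ⟨a, ha⟩ : A' i) : Fin n) ∈ A' j
    let g : Fin n → Fin n := fun a =>
      if hq : Q a then ((f j).symm ⟨(f i ⟨a, hq.1⟩ : A' i), hq.2⟩ : A j) else a
    let X : Finset (Fin n) := Finset.univ.filter fun a => ¬ Q a
    have hgQ : ∀ a (hq : Q a), g a = ((f j).symm ⟨(f i ⟨a, hq.1⟩ : A' i), hq.2⟩ : A j) := by
      intro a hq
      exact dif_pos hq
    have hXmem : ∀ a, a ∉ X → Q a := by
      intro a ha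
      by_contra h1
      exact ha (Finset.mem_filter.2 ⟨Finset.mem_univ _, h1⟩)
    have hXc : X.card ≤ n / 1024 := by
      have h1 : (Finset.univ.filter fun a => Q a).card = (A' i ∩ A' j).card := by
        refine Finset.card_bij' (fun a _ => if ha : a ∈ A i then ((f i ⟨a, ha⟩ : A' i) : Fin n) else a)
          (fun b _ => if hb : b ∈ A' i then (((f i).symm ⟨b, hb⟩ : A i) : Fin n) else b) ?_ ?_ ?_ ?_
        · intro a ha
          obtain ⟨ha1, ha2⟩ := (Finset.mem_filter.1 ha).2
          simp only [ha1, dif_pos]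
          exact Finset.mem_inter.2 ⟨(f i ⟨a, ha1⟩).2, ha2⟩
        · intro b hb
          obtain ⟨hb1, hb2⟩ := Finset.mem_inter.1 hb
          simp only [hb1, dif_pos]
          refine Finset.mem_filter.2 ⟨Finset.mem_univ _, ((f i).symm ⟨b, hb1⟩).2, ?_⟩
          have e : (⟨(((f i).symm ⟨b, hb1⟩ : A i) : Fin n), ((f i).symm ⟨b, hb1⟩).2⟩ : A i) =
              (f i).symm ⟨b, hb1⟩ := rfl
          rw [e, Equiv.apply_symm_apply]
          exact hb2
        · intro a ha
          obtain ⟨ha1, ha2⟩ := (Finset.mem_filter.1 ha).2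
          have h2 : ((f i ⟨a, ha1⟩ : A' i) : Fin n) ∈ A' i := (f i ⟨a, ha1⟩).2
          simp only [ha1, dif_pos, h2, Subtype.coe_eta, Equiv.symm_apply_apply]
        · intro b hb
          obtain ⟨hb1, hb2⟩ := Finset.mem_inter.1 hb
          have h2 : (((f i).symm ⟨b, hb1⟩ : A i) : Fin n) ∈ A i := ((f i).symm ⟨b, hb1⟩).2
          simp only [hb1, dif_pos, h2, Subtype.coe_eta, Equiv.apply_symm_apply]
      have h2 : X.card + (Finset.univ.filter fun a => Q a).card = n := by
        have := Finset.card_filter_add_card_filter_not (s := (Finset.univ : Finset (Fin n))) Q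
        rw [Finset.card_univ, Fintype.card_fin, add_comm] at this
        convert this using 2
      have h3 := Finset.card_union_add_card_inter (A' i) (A' j)
      have h4 : (A' i ∪ A' j).card ≤ n := by
        have := Finset.card_le_univ (A' i ∪ A' j)
        rwa [Fintype.card_fin] at this
      have h5 := hcard i
      have h6 := hcard j
      omega
    have hadm : Adm X g := by
      refine ⟨fun a ha => dif_neg (Finset.mem_filter.1 ha).2, ?_⟩
      intro a b ha hb hab
      have ha' := hXmem a ha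
      have hb' := hXmem b hb
      rw [hgQ a ha', hgQ b hb'] at hab
      have h1 := (f j).symm.injective (Subtype.ext hab)
      have h2 : ((f i ⟨a, ha'.1⟩ : A' i) : Fin n) = (f i ⟨b, hb'.1⟩ : A' i) :=
        congrArg (fun t : A' j => (t : Fin n)) h1
      have h3 := (f i).injective (Subtype.ext h2)
      exact congrArg Subtype.val h3
    have hinv : Inv X g r := by
      intro a b ha hb
      have ha' := hXmem a ha
      have hb' := hXmem b hb
      rw [hgQ a ha', hgQ b hb']
      have h1 := hf i ⟨a, ha'.1⟩ ⟨b, hb'.1⟩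
      have h2 := hf j ((f j).symm ⟨(f i ⟨a, ha'.1⟩ : A' i), ha'.2⟩)
        ((f j).symm ⟨(f i ⟨b, hb'.1⟩ : A' i), hb'.2⟩)
      rw [Equiv.apply_symm_apply, Equiv.apply_symm_apply] at h2
      exact h1.trans h2.symm
    have hid := h X g hXc hadm hinv
    have hq : Q ((f i).symm ⟨u, hi⟩ : A i) := by
      refine ⟨((f i).symm ⟨u, hi⟩).2, ?_⟩
      have e : (⟨(((f i).symm ⟨u, hi⟩ : A i) : Fin n), ((f i).symm ⟨u, hi⟩).2⟩ : A i) =
          (f i).symm ⟨u, hi⟩ := rfl
      rw [e, Equiv.apply_symm_apply]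
      exact hj
    have h1 := hid ((f i).symm ⟨u, hi⟩ : A i)
    rw [hgQ _ hq] at h1
    rw [← h1]
    congr 2
    apply Subtype.ext
    show (f i ⟨(((f i).symm ⟨u, hi⟩ : A i) : Fin n), _⟩ : Fin n) = u
    rw [Subtype.coe_eta, Equiv.apply_symm_apply]
  choose I hI using fun u => hcov u u
  let H : Fin n → Fin n := fun u => ((f (I u)).symm ⟨u, (hI u).1⟩ : A (I u))
  have hH : ∀ i u (hu : u ∈ A' i), H u = ((f i).symm ⟨u, hu⟩ : A i) := fun i u hu =>
    key (I u) i u (hI u).1 hu
  have hHinj : Function.Injective H := by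
    intro u v huv
    obtain ⟨i, hu, hv⟩ := hcov u v
    rw [hH i u hu, hH i v hv] at huv
    have h1 := (f i).symm.injective (Subtype.ext huv)
    exact congrArg Subtype.val h1
  have hHbij : Function.Bijective H := Finite.injective_iff_bijective.1 hHinj
  refine ⟨(Equiv.ofBijective H hHbij).symm, fun a b => ?_⟩
  obtain ⟨u, rfl⟩ := hHbij.2 a
  obtain ⟨v, rfl⟩ := hHbij.2 b
  have h1 : ∀ w, (Equiv.ofBijective H hHbij).symm (H w) = w := fun w =>
    (Equiv.ofBijective H hHbij).symm_apply_apply w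
  rw [h1, h1]
  obtain ⟨i, hu, hv⟩ := hcov u v
  rw [hH i u hu, hH i v hv]
  have h2 := hf i ((f i).symm ⟨u, hu⟩) ((f i).symm ⟨v, hv⟩)
  rw [Equiv.apply_symm_apply, Equiv.apply_symm_apply] at h2
  exact h2

/-- The labelled count. -/
theorem card_not_rigid {n : ℕ} :
    (Nat.card {r : P (Fin n) // ¬ Rigid r.1} : ℝ) ≤
      ∑ t ∈ II n, (Nat.card {r : P (Fin n) // Inv t.1 t.2 r.1} : ℝ) := by
  classical
  have h1 : ∀ r : {r : P (Fin n) // ¬ Rigid r.1}, ∃ t : Finset (Fin n) × (Fin n → Fin n),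
      t ∈ II n ∧ Inv t.1 t.2 r.1.1 := by
    rintro ⟨r, hr⟩
    unfold Rigid at hr
    push Not at hr
    obtain ⟨X, g, hX, hadm, hinv, a, ha⟩ := hr
    exact ⟨(X, g), Finset.mem_filter.2 ⟨Finset.mem_univ _, hX, hadm, a, ha⟩, hinv⟩
  choose t ht htI using h1
  have h2 : Nat.card {r : P (Fin n) // ¬ Rigid r.1} ≤
      Nat.card (Σ t : II n, {r : P (Fin n) // Inv t.1.1 t.1.2 r.1}) := by
    refine Nat.card_le_card_of_injective
      (fun r => (⟨⟨t r, ht r⟩, ⟨r.1, htI r⟩⟩ :
        Σ t : II n, {r : P (Fin n) // Inv t.1.1 t.1.2 r.1})) ?_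
    intro r s hrs
    apply Subtype.ext
    have := congrArg (fun x : (Σ t : II n, {r : P (Fin n) // Inv t.1.1 t.1.2 r.1}) => x.2.1) hrs
    exact this
  have h3 : Nat.card (Σ t : II n, {r : P (Fin n) // Inv t.1.1 t.1.2 r.1}) =
      ∑ t ∈ II n, Nat.card {r : P (Fin n) // Inv t.1 t.2 r.1} := by
    rw [Nat.card_sigma]
    exact Finset.sum_coe_sort (II n) fun t => Nat.card {r : P (Fin n) // Inv t.1 t.2 r.1}
  rw [h3] at h2
  exact_mod_cast h2

end Pool.Agent.Helper87.PD
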