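import Pool.Agent.Helper87.PD.Enc

/-!
# The sum over all pairs
-/

namespace Pool.Agent.Helper87.PD

open scoped Classical in
/-- The pairs: at most `n / 1024` deleted points, `g` not the identity. -/
noncomputable def II (n : ℕ) : Finset (Finset (Fin n) × (Fin n → Fin n)) :=
  Finset.univ.filter fun t => t.1.card ≤ n / 1024 ∧ Adm t.1 t.2 ∧ ∃ a, t.2 a ≠ a

theorem card_X_le (n κ : ℕ) (hκ : κ ≤ n) :
    ((Finset.univ : Finset (Finset (Fin n))).filter fun X => X.card ≤ κ).card ≤
      2 ^ (10 * κ + n / 256 + 1) := by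
  classical
  have h1 : ∑ X : Finset (Fin n), (1024 : ℕ) ^ (n - X.card) = 1025 ^ n := by
    have h2 := Finset.sum_pow_mul_eq_add_pow (1 : ℕ) 1024 (Finset.univ : Finset (Fin n))
    rw [Finset.powerset_univ, Finset.card_univ, Fintype.card_fin] at h2
    simpa using h2
  have h2 : ((Finset.univ : Finset (Finset (Fin n))).filter fun X => X.card ≤ κ).card *
      1024 ^ (n - κ) ≤ 1025 ^ n := by
    rw [← h1, ← smul_eq_mul, ← Finset.sum_const]
    calc ∑ _X ∈ (Finset.univ : Finset (Finset (Fin n))).filter (fun X => X.card ≤ κ),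
          1024 ^ (n - κ)
        ≤ ∑ X ∈ (Finset.univ : Finset (Finset (Fin n))).filter (fun X => X.card ≤ κ),
          1024 ^ (n - X.card) := by
          refine Finset.sum_le_sum fun X hX => Nat.pow_le_pow_right (by norm_num) ?_
          have := (Finset.mem_filter.1 hX).2
          omega
      _ ≤ ∑ X : Finset (Fin n), 1024 ^ (n - X.card) :=
          Finset.sum_le_sum_of_subset (Finset.filter_subset _ _)
  have h3 : 1025 ^ n ≤ 2 ^ (10 * n + n / 256 + 1) := by
    have e : n = 256 * (n / 256) + n % 256 := (Nat.div_add_mod n 256).symm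
    have a1 : (1025 : ℕ) ^ 256 ≤ 2 ^ 2561 := by decide +kernel
    have a2 : ∀ j ≤ 256, (1025 : ℕ) ^ j ≤ 2 ^ (10 * j + 1) := by
      intro j hj
      have a3 : (1025 : ℕ) ^ j * 1024 ^ (256 - j) ≤ 2 ^ (10 * j + 1) * 1024 ^ (256 - j) := by
        calc (1025 : ℕ) ^ j * 1024 ^ (256 - j) ≤ 1025 ^ j * 1025 ^ (256 - j) := by gcongr; norm_num
          _ = 1025 ^ 256 := by rw [← pow_add]; congr 1; omega
          _ ≤ 2 ^ 2561 := a1
          _ = 2 ^ (10 * j + 1) * 1024 ^ (256 - j) := by
            rw [show (1024 : ℕ) = 2 ^ 10 by norm_num, ← pow_mul, ← pow_add]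
            congr 1
            omega
      exact Nat.le_of_mul_le_mul_right a3 (by positivity)
    calc (1025 : ℕ) ^ n = (1025 ^ 256) ^ (n / 256) * 1025 ^ (n % 256) := by
          rw [← pow_mul, ← pow_add, ← e]
      _ ≤ (2 ^ 2561) ^ (n / 256) * 2 ^ (10 * (n % 256) + 1) :=
          Nat.mul_le_mul (Nat.pow_le_pow_left a1 _) (a2 _ (Nat.mod_lt n (by norm_num)).le)
      _ = 2 ^ (10 * n + n / 256 + 1) := by
          rw [← pow_mul, ← pow_add]
          congr 1
          omega
  have h4 : ((Finset.univ : Finset (Finset (Fin n))).filter fun X => X.card ≤ κ).card *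
      1024 ^ (n - κ) ≤ 2 ^ (10 * κ + n / 256 + 1) * 1024 ^ (n - κ) := by
    refine (h2.trans h3).trans (le_of_eq ?_)
    rw [show (1024 : ℕ) = 2 ^ 10 by norm_num, ← pow_mul, ← pow_add]
    congr 1
    omega
  exact Nat.le_of_mul_le_mul_right h4 (by positivity)

theorem card_g_le (n k : ℕ) :
    ((Finset.univ : Finset (Fin n → Fin n)).filter fun g => (mv g).card = k).card ≤
      n ^ (2 * k) := by
  classical
  let G : (Fin n → Fin n) → Finset (Fin n × Fin n) := fun g => (mv g).image fun a => (a, g a)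
  have h1 : ((Finset.univ : Finset (Fin n → Fin n)).filter fun g => (mv g).card = k).card ≤
      ((Finset.univ : Finset (Fin n × Fin n)).powersetCard k).card := by
    refine Finset.card_le_card_of_injOn G ?_ ?_
    · intro g hg
      have h2 := (Finset.mem_filter.1 (Finset.mem_coe.1 hg)).2
      rw [Finset.mem_coe, Finset.mem_powersetCard]
      refine ⟨Finset.subset_univ _, ?_⟩
      rw [Finset.card_image_of_injective _ (fun a b h => (Prod.mk.inj h).1), h2]
    · intro g _ h _ hgh
      have key : ∀ g : Fin n → Fin n, ∀ a b, ((a, b) ∈ G g ↔ g a = b ∧ a ≠ b) := by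
        intro g a b
        simp only [G, Finset.mem_image, mv, Finset.mem_filter, Finset.mem_univ, true_and,
          Prod.mk.injEq]
        constructor
        · rintro ⟨c, hc, rfl, rfl⟩
          exact ⟨rfl, fun h => hc h.symm⟩
        · rintro ⟨rfl, h⟩
          exact ⟨a, fun h' => h h'.symm, rfl, rfl⟩
      funext a
      change G g = G h at hgh
      by_cases h1 : g a = a
      · by_contra h2
        have h3 : (a, h a) ∈ G h := (key h a (h a)).2 ⟨rfl, fun h' => h2 (by rw [h1]; exact h')⟩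
        rw [← hgh, key] at h3
        exact h2 h3.1
      · have h3 : (a, g a) ∈ G g := (key g a (g a)).2 ⟨rfl, fun h' => h1 h'.symm⟩
        rw [hgh, key] at h3
        exact h3.1.symm
  refine h1.trans ?_
  rw [Finset.card_powersetCard, Finset.card_univ, Fintype.card_prod, Fintype.card_fin, pow_mul,
    sq]
  exact Nat.choose_le_pow _ _

theorem lin_le_pow2 (j : ℕ) (hj : 23 ≤ j) : 150000 * (j + 1) ≤ 2 ^ j := by
  induction j, hj using Nat.le_induction with
  | base => norm_num
  | succ j hj ih =>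
    rw [pow_succ]
    omega

/-- the exponents -/
theorem exps {n k b : ℕ} (hn : 4000000 ≤ n) (hb1 : 1 ≤ b) (hb : k ≤ 256 * b) :
    (10 * (n / 1024) + n / 256 + 1) + 2 * k * (n / 150000) + (n / 16 + 2) + n / 150000 ≤
      b * (n / 12) := by
  obtain ⟨L, hL⟩ : ∃ L, L = n / 150000 := ⟨_, rfl⟩
  obtain ⟨D, hD⟩ : ∃ D, D = n / 12 := ⟨_, rfl⟩
  obtain ⟨S, hS⟩ : ∃ S, S = (10 * (n / 1024) + n / 256 + 1) + (n / 16 + 2) + n / 150000 :=
    ⟨_, rfl⟩
  have h1 : S + 512 * L ≤ D := by omega
  have h2 : b * (S + 512 * L) ≤ b * D := Nat.mul_le_mul_left b h1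
  have h3 : S ≤ b * S := Nat.le_mul_of_pos_left S hb1
  have h4 : 2 * k * L ≤ 512 * b * L := Nat.mul_le_mul_right L (by omega)
  have h5 : b * (S + 512 * L) = b * S + 512 * b * L := by ring
  rw [← hL, ← hD]
  omega

theorem total {n : ℕ} (hn : 4000000 ≤ n) :
    (∑ t ∈ II n, (Nat.card {r : P (Fin n) // Inv t.1 t.2 r.1} : ℝ)) * 2 ^ (n / 16 + 2) ≤
      pp n := by
  classical
  set L := n / 150000 with hL
  set S' := 10 * (n / 1024) + n / 256 + 1 with hS'
  have hnL : (n : ℝ) ≤ 2 ^ L := by
    have h1 := lin_le_pow2 L (by omega)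
    have h2 : n ≤ 2 ^ L := by omega
    exact_mod_cast h2
  have hone : ∀ t ∈ II n, (Nat.card {r : P (Fin n) // Inv t.1 t.2 r.1} : ℝ) ≤
      pp n / 2 ^ (S' + (n / 16 + 2) + L) * (1 / (2 : ℝ) ^ (2 * (mv t.2).card * L)) := by
    intro t ht
    obtain ⟨-, hX, hadm, a, ha⟩ := Finset.mem_filter.1 ht
    have hk : 1 ≤ (mv t.2).card :=
      Finset.card_pos.2 ⟨a, Finset.mem_filter.2 ⟨Finset.mem_univ _, ha⟩⟩
    have hkn : (mv t.2).card ≤ n := by
      have := Finset.card_le_univ (mv t.2)
      rwa [Fintype.card_fin] at this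
    have h1 := one_pair (n := n) (by omega) t.1 t.2 hadm hX
      (min (((mv t.2).card + 2) / 3) (n / 128)) (by omega) (by omega)
    have h2 := exps (n := n) (k := (mv t.2).card)
      (b := min (((mv t.2).card + 2) / 3) (n / 128)) hn (by omega) (by omega)
    rw [← hL, ← hS'] at h2
    have h3 : Nat.card {r : P (Fin n) // Inv t.1 t.2 r.1} *
        2 ^ ((S' + (n / 16 + 2) + L) + 2 * (mv t.2).card * L) ≤ pp n := by
      refine le_trans (Nat.mul_le_mul_left _ (Nat.pow_le_pow_right (by norm_num) ?_)) h1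
      omega
    have h4 : (Nat.card {r : P (Fin n) // Inv t.1 t.2 r.1} : ℝ) *
        (2 ^ (S' + (n / 16 + 2) + L) * 2 ^ (2 * (mv t.2).card * L)) ≤ pp n := by
      rw [← pow_add]
      exact_mod_cast h3
    rw [div_mul_div_comm, mul_one, le_div_iff₀ (by positivity)]
    exact h4
  have hsub : II n ⊆ (((Finset.univ : Finset (Finset (Fin n))).filter
      fun X => X.card ≤ n / 1024) ×ˢ ((Finset.univ : Finset (Fin n → Fin n)).filter
        fun g => (mv g).card ∈ Finset.Icc 1 n)) := by
    intro t ht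
    obtain ⟨-, hX, hadm, a, ha⟩ := Finset.mem_filter.1 ht
    rw [Finset.mem_product, Finset.mem_filter, Finset.mem_filter, Finset.mem_Icc]
    refine ⟨⟨Finset.mem_univ _, hX⟩, Finset.mem_univ _,
      Finset.card_pos.2 ⟨a, Finset.mem_filter.2 ⟨Finset.mem_univ _, ha⟩⟩, ?_⟩
    have := Finset.card_le_univ (mv t.2)
    rwa [Fintype.card_fin] at this
  have hg : ∑ g ∈ (Finset.univ : Finset (Fin n → Fin n)).filter
      (fun g => (mv g).card ∈ Finset.Icc 1 n), (1 / (2 : ℝ) ^ (2 * (mv g).card * L)) ≤ 2 ^ L := by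
    have h0 : ∀ g ∈ (Finset.univ : Finset (Fin n → Fin n)).filter
        (fun g => (mv g).card ∈ Finset.Icc 1 n), (mv g).card ∈ Finset.Icc 1 n :=
      fun g hg => (Finset.mem_filter.1 hg).2
    rw [← Finset.sum_fiberwise_of_maps_to h0]
    calc ∑ k ∈ Finset.Icc 1 n, ∑ g ∈ ((Finset.univ : Finset (Fin n → Fin n)).filter
          (fun g => (mv g).card ∈ Finset.Icc 1 n)).filter (fun g => (mv g).card = k),
          (1 / (2 : ℝ) ^ (2 * (mv g).card * L))
        ≤ ∑ _k ∈ Finset.Icc 1 n, (1 : ℝ) := by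
          refine Finset.sum_le_sum fun k _ => ?_
          calc ∑ g ∈ ((Finset.univ : Finset (Fin n → Fin n)).filter
                (fun g => (mv g).card ∈ Finset.Icc 1 n)).filter (fun g => (mv g).card = k),
                (1 / (2 : ℝ) ^ (2 * (mv g).card * L))
              = ∑ g ∈ ((Finset.univ : Finset (Fin n → Fin n)).filter
                (fun g => (mv g).card ∈ Finset.Icc 1 n)).filter (fun g => (mv g).card = k),
                (1 / (2 : ℝ) ^ (2 * k * L)) := by
                refine Finset.sum_congr rfl fun g hg => ?_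
                rw [(Finset.mem_filter.1 hg).2]
            _ ≤ ∑ g ∈ (Finset.univ : Finset (Fin n → Fin n)).filter (fun g => (mv g).card = k),
                (1 / (2 : ℝ) ^ (2 * k * L)) := by
                refine Finset.sum_le_sum_of_subset_of_nonneg ?_ fun _ _ _ => by positivity
                intro g hg
                exact Finset.mem_filter.2 ⟨Finset.mem_univ _, (Finset.mem_filter.1 hg).2⟩
            _ = (((Finset.univ : Finset (Fin n → Fin n)).filter
                (fun g => (mv g).card = k)).card : ℝ) * (1 / (2 : ℝ) ^ (2 * k * L)) := by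
                rw [Finset.sum_const, nsmul_eq_mul]
            _ ≤ (n : ℝ) ^ (2 * k) * (1 / (2 : ℝ) ^ (2 * k * L)) := by
                refine mul_le_mul_of_nonneg_right ?_ (by positivity)
                exact_mod_cast card_g_le n k
            _ ≤ (2 ^ L) ^ (2 * k) * (1 / (2 : ℝ) ^ (2 * k * L)) := by
                refine mul_le_mul_of_nonneg_right ?_ (by positivity)
                exact pow_le_pow_left₀ (by positivity) hnL _
            _ = 1 := by
                rw [← pow_mul, mul_comm L, mul_one_div, div_self (by positivity)]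
      _ = n := by simp
      _ ≤ 2 ^ L := hnL
  have hX : (((Finset.univ : Finset (Finset (Fin n))).filter
      fun X => X.card ≤ n / 1024).card : ℝ) ≤ 2 ^ S' := by
    exact_mod_cast card_X_le n (n / 1024) (Nat.div_le_self _ _)
  have hmain : ∑ t ∈ II n, (Nat.card {r : P (Fin n) // Inv t.1 t.2 r.1} : ℝ) ≤
      pp n / 2 ^ (S' + (n / 16 + 2) + L) * (2 ^ S' * 2 ^ L) := by
    calc ∑ t ∈ II n, (Nat.card {r : P (Fin n) // Inv t.1 t.2 r.1} : ℝ)
        ≤ ∑ t ∈ II n, pp n / 2 ^ (S' + (n / 16 + 2) + L) *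
          (1 / (2 : ℝ) ^ (2 * (mv t.2).card * L)) := Finset.sum_le_sum hone
      _ = pp n / 2 ^ (S' + (n / 16 + 2) + L) *
          ∑ t ∈ II n, (1 / (2 : ℝ) ^ (2 * (mv t.2).card * L)) := by rw [Finset.mul_sum]
      _ ≤ pp n / 2 ^ (S' + (n / 16 + 2) + L) *
          ∑ t ∈ (((Finset.univ : Finset (Finset (Fin n))).filter
            fun X => X.card ≤ n / 1024) ×ˢ ((Finset.univ : Finset (Fin n → Fin n)).filter
            fun g => (mv g).card ∈ Finset.Icc 1 n)),
            (1 / (2 : ℝ) ^ (2 * (mv t.2).card * L)) := by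
          refine mul_le_mul_of_nonneg_left ?_ (by positivity)
          exact Finset.sum_le_sum_of_subset_of_nonneg hsub fun _ _ _ => by positivity
      _ = pp n / 2 ^ (S' + (n / 16 + 2) + L) *
          ((((Finset.univ : Finset (Finset (Fin n))).filter
            fun X => X.card ≤ n / 1024).card : ℝ) *
            ∑ g ∈ (Finset.univ : Finset (Fin n → Fin n)).filter
              (fun g => (mv g).card ∈ Finset.Icc 1 n),
              (1 / (2 : ℝ) ^ (2 * (mv g).card * L))) := by
          rw [Finset.sum_product]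
          simp only
          rw [Finset.sum_const, nsmul_eq_mul]
      _ ≤ pp n / 2 ^ (S' + (n / 16 + 2) + L) * (2 ^ S' * 2 ^ L) := by
          refine mul_le_mul_of_nonneg_left ?_ (by positivity)
          refine mul_le_mul hX hg ?_ (by positivity)
          exact Finset.sum_nonneg fun _ _ => by positivity
  calc (∑ t ∈ II n, (Nat.card {r : P (Fin n) // Inv t.1 t.2 r.1} : ℝ)) * 2 ^ (n / 16 + 2)
      ≤ (pp n / 2 ^ (S' + (n / 16 + 2) + L) * (2 ^ S' * 2 ^ L)) * 2 ^ (n / 16 + 2) :=
        mul_le_mul_of_nonneg_right hmain (by positivity)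
    _ = pp n := by
        rw [pow_add 2 (S' + (n / 16 + 2)) L, pow_add 2 S' (n / 16 + 2)]
        have h1 : (2 : ℝ) ^ S' ≠ 0 := by positivity
        have h2 : (2 : ℝ) ^ L ≠ 0 := by positivity
        have h3 : (2 : ℝ) ^ (n / 16 + 2) ≠ 0 := by positivity
        field_simp

end Pool.Agent.Helper87.PD
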